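import Mathlib

/-!
Ising measures with small operator norm on the cube `ι → Bool`: definitions and flips.
-/

namespace Pool.Agent.MP_9e8696_an.H12

open Finset

variable {ι : Type*} [Fintype ι] [DecidableEq ι]

/-- The sign of a bit (`false ↦ 1`, `true ↦ -1`). -/
def sg (b : Bool) : ℝ := if b then -1 else 1

/-- Flip the coordinate `i`. -/
def fl (x : ι → Bool) (i : ι) : ι → Bool := Function.update x i (!x i)

/-- The local field `h_i = ∑_j J_ij x_j`. -/
def hf (J : ι → ι → ℝ) (x : ι → Bool) (i : ι) : ℝ := ∑ j, J i j * sg (x j)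

/-- The full difference `f(x) - f(x^i)`. -/
def grad (i : ι) (f : (ι → Bool) → ℝ) (x : ι → Bool) : ℝ := f x - f (fl x i)

/-- The discrete derivative `D_i f`, the coefficient of `x_i` (independent of `x_i`). -/
noncomputable def dd (i : ι) (f : (ι → Bool) → ℝ) (x : ι → Bool) : ℝ :=
  sg (x i) * (f x - f (fl x i)) / 2

/-- Expectation with respect to the weight `p`. -/
def Ex (p : (ι → Bool) → ℝ) (f : (ι → Bool) → ℝ) : ℝ := ∑ x, p x * f x

/-- `J` is symmetric with zero diagonal and operator norm at most `d`. -/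
structure Small (J : ι → ι → ℝ) (d : ℝ) : Prop where
  symm : ∀ i j, J i j = J j i
  diag : ∀ i, J i i = 0
  nonneg : 0 ≤ d
  quad : ∀ u : ι → ℝ, |∑ i, ∑ j, J i j * u i * u j| ≤ d * ∑ i, u i ^ 2

/-- `p` is the Gibbs probability weight proportional to `exp(x'Jx/2)`. -/
structure Gibbs (J : ι → ι → ℝ) (p : (ι → Bool) → ℝ) : Prop where
  pos : ∀ x, 0 < p x
  sum : ∑ x, p x = 1
  flip : ∀ x i, p (fl x i) = p x * Real.exp (-2 * sg (x i) * hf J x i)
  neg : ∀ x, p (fun i => !x i) = p x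

lemma sg_not (b : Bool) : sg (!b) = -sg b := by cases b <;> simp [sg]

lemma sg_sq (b : Bool) : sg b ^ 2 = 1 := by cases b <;> simp [sg]

lemma sg_mul_self (b : Bool) : sg b * sg b = 1 := by cases b <;> simp [sg]

lemma abs_sg (b : Bool) : |sg b| = 1 := by cases b <;> simp [sg]

omit [Fintype ι] in
lemma fl_same (x : ι → Bool) (i : ι) : fl x i i = !x i := by simp [fl]

omit [Fintype ι] in
lemma fl_ne (x : ι → Bool) {i j : ι} (h : j ≠ i) : fl x i j = x j := by simp [fl, h]

omit [Fintype ι] in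
lemma fl_fl (x : ι → Bool) (i : ι) : fl (fl x i) i = x := by
  funext j
  by_cases h : j = i
  · subst h; simp [fl]
  · simp [fl, h]

omit [Fintype ι] in
lemma fl_comm (x : ι → Bool) (i j : ι) : fl (fl x i) j = fl (fl x j) i := by
  funext k
  by_cases hij : i = j
  · subst hij; rfl
  · by_cases h : k = i
    · subst h
      have : k ≠ j := hij
      simp [fl, this, Ne.symm this]
    · by_cases h' : k = j
      · subst h'; simp [fl, h, Ne.symm h]
      · simp [fl, h, h']

omit [Fintype ι] in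
lemma sg_fl_same (x : ι → Bool) (i : ι) : sg (fl x i i) = -sg (x i) := by
  rw [fl_same, sg_not]

omit [Fintype ι] in
lemma sg_fl (x : ι → Bool) (i j : ι) :
    sg (fl x i j) = sg (x j) - if j = i then 2 * sg (x i) else 0 := by
  by_cases h : j = i
  · subst h; rw [sg_fl_same]; simp; ring
  · rw [fl_ne x h]; simp [h]

lemma sum_fl (i : ι) (g : (ι → Bool) → ℝ) : ∑ x, g (fl x i) = ∑ x, g x :=
  Equiv.sum_comp (Function.Involutive.toPerm (fun x => fl x i) (fun x => fl_fl x i)) g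

lemma sum_neg (g : (ι → Bool) → ℝ) : ∑ x : ι → Bool, g (fun i => !x i) = ∑ x, g x :=
  Equiv.sum_comp (Function.Involutive.toPerm (fun (x : ι → Bool) => fun i => !x i)
    (fun x => by funext i; simp)) g

/-- A linear form changes by `-2 b_i x_i` under the flip of `i`. -/
lemma lin_fl (b : ι → ℝ) (x : ι → Bool) (i : ι) :
    ∑ j, b j * sg (fl x i j) = ∑ j, b j * sg (x j) - 2 * b i * sg (x i) := by
  simp only [sg_fl, mul_sub, Finset.sum_sub_distrib, mul_ite, mul_zero, Finset.sum_ite_eq',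
    Finset.mem_univ, if_true]
  ring

lemma hf_fl (J : ι → ι → ℝ) (x : ι → Bool) (i j : ι) :
    hf J (fl x i) j = hf J x j - 2 * J j i * sg (x i) := lin_fl (J j) x i

lemma hf_fl_same {J : ι → ι → ℝ} {d : ℝ} (hJ : Small J d) (x : ι → Bool) (i : ι) :
    hf J (fl x i) i = hf J x i := by
  rw [hf_fl, hJ.diag]; ring

omit [Fintype ι] in
lemma grad_fl (i : ι) (f : (ι → Bool) → ℝ) (x : ι → Bool) :
    grad i f (fl x i) = -grad i f x := by
  simp [grad, fl_fl]

omit [Fintype ι] in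
lemma dd_fl (i : ι) (f : (ι → Bool) → ℝ) (x : ι → Bool) : dd i f (fl x i) = dd i f x := by
  simp only [dd, fl_fl, sg_fl_same]; ring

omit [Fintype ι] in
lemma dd_sq (i : ι) (f : (ι → Bool) → ℝ) (x : ι → Bool) :
    dd i f x ^ 2 = grad i f x ^ 2 / 4 := by
  simp only [dd, grad, div_pow, mul_pow, sg_sq]; ring

omit [Fintype ι] in
lemma fl_eq_dd (i : ι) (f : (ι → Bool) → ℝ) (x : ι → Bool) :
    f (fl x i) = f x - 2 * sg (x i) * dd i f x := by
  have := sg_mul_self (x i)
  simp only [dd]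
  linear_combination (f x - f (fl x i)) * this

lemma dd_lin (b : ι → ℝ) (x : ι → Bool) (i : ι) :
    dd i (fun x => ∑ j, b j * sg (x j)) x = b i := by
  have := sg_mul_self (x i)
  simp only [dd, lin_fl]
  linear_combination (b i) * this

omit [DecidableEq ι] in
/-- Bilinear bound from the quadratic form bound. -/
lemma Small.bil {J : ι → ι → ℝ} {d : ℝ} (hJ : Small J d) (u v : ι → ℝ) :
    ∑ i, ∑ j, J i j * u i * v j ≤ d * (∑ i, u i ^ 2 + ∑ i, v i ^ 2) / 2 := by
  have h1 := (abs_le.1 (hJ.quad (fun i => u i + v i))).2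
  have h2 := (abs_le.1 (hJ.quad (fun i => u i - v i))).1
  have hs : ∑ i, ∑ j, J i j * v i * u j = ∑ i, ∑ j, J i j * u i * v j := by
    rw [Finset.sum_comm]
    exact Finset.sum_congr rfl fun i _ => Finset.sum_congr rfl fun j _ => by
      rw [hJ.symm j i]; ring
  have e1 : ∑ i, ∑ j, J i j * (u i + v i) * (u j + v j)
      - ∑ i, ∑ j, J i j * (u i - v i) * (u j - v j)
      = 2 * ∑ i, ∑ j, J i j * u i * v j + 2 * ∑ i, ∑ j, J i j * v i * u j := by
    simp only [Finset.mul_sum, ← Finset.sum_add_distrib, ← Finset.sum_sub_distrib]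
    exact Finset.sum_congr rfl fun i _ => Finset.sum_congr rfl fun j _ => by ring
  have e2 : ∑ i, (u i + v i) ^ 2 + ∑ i, (u i - v i) ^ 2
      = 2 * (∑ i, u i ^ 2 + ∑ i, v i ^ 2) := by
    simp only [Finset.mul_sum, ← Finset.sum_add_distrib]
    exact Finset.sum_congr rfl fun i _ => by ring
  rw [hs] at e1
  have : d * ∑ i, (u i + v i) ^ 2 + d * ∑ i, (u i - v i) ^ 2
      = d * (2 * (∑ i, u i ^ 2 + ∑ i, v i ^ 2)) := by rw [← e2]; ring
  linarith

omit [DecidableEq ι] in
/-- `|J v|^2 ≤ d^2 |v|^2`. -/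
lemma Small.vec {J : ι → ι → ℝ} {d : ℝ} (hJ : Small J d) (v : ι → ℝ) :
    ∑ i, (∑ j, J i j * v j) ^ 2 ≤ d ^ 2 * ∑ i, v i ^ 2 := by
  set A := ∑ i, (∑ j, J i j * v j) ^ 2 with hA
  set B := ∑ i, v i ^ 2 with hB
  have hA0 : 0 ≤ A := Finset.sum_nonneg fun i _ => sq_nonneg _
  have hB0 : 0 ≤ B := Finset.sum_nonneg fun i _ => sq_nonneg _
  have key : ∀ t : ℝ, t * A ≤ d * (t ^ 2 * A + B) / 2 := by
    intro t
    have h := hJ.bil (fun i => t * ∑ j, J i j * v j) v
    have e1 : ∑ i, ∑ j, J i j * (t * ∑ k, J i k * v k) * v j = t * A := by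
      rw [hA, Finset.mul_sum]
      refine Finset.sum_congr rfl fun i _ => ?_
      rw [sq, ← mul_assoc, Finset.mul_sum _ _ (t * ∑ k, J i k * v k)]
      exact Finset.sum_congr rfl fun j _ => by ring
    have e2 : ∑ i, (t * ∑ j, J i j * v j) ^ 2 = t ^ 2 * A := by
      rw [hA, Finset.mul_sum]
      exact Finset.sum_congr rfl fun i _ => by ring
    rw [e1, e2] at h
    exact h
  rcases hJ.nonneg.eq_or_lt with h0 | hpos
  · have := key 1
    rw [← h0] at this ⊢
    nlinarith
  · have h := key (1 / d)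
    have e : d * ((1 / d) ^ 2 * A + B) / 2 = (1 / d) * A / 2 + d * B / 2 := by
      field_simp
    rw [e] at h
    have h2 : (1 / d) * A ≤ d * B := by linarith
    have h3 : d * ((1 / d) * A) ≤ d * (d * B) := mul_le_mul_of_nonneg_left h2 hpos.le
    have e3 : d * ((1 / d) * A) = A := by field_simp
    rw [e3] at h3
    nlinarith

/-- Row sums of squares are at most `d^2`. -/
lemma Small.row {J : ι → ι → ℝ} {d : ℝ} (hJ : Small J d) (i : ι) :
    ∑ j, J i j ^ 2 ≤ d ^ 2 := by
  have h := hJ.vec (fun k => if k = i then 1 else 0)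
  simp only [mul_ite, mul_one, mul_zero, Finset.sum_ite_eq', Finset.mem_univ, if_true,
    ite_pow, one_pow, ne_eq, OfNat.ofNat_ne_zero, not_false_eq_true, zero_pow] at h
  calc ∑ j, J i j ^ 2 = ∑ j, J j i ^ 2 := Finset.sum_congr rfl fun j _ => by rw [hJ.symm]
    _ ≤ d ^ 2 := h

lemma Small.entry {J : ι → ι → ℝ} {d : ℝ} (hJ : Small J d) (i j : ι) : |J i j| ≤ d := by
  have h1 : J i j ^ 2 ≤ ∑ k, J i k ^ 2 :=
    Finset.single_le_sum (f := fun k => J i k ^ 2) (fun k _ => sq_nonneg _) (Finset.mem_univ j)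
  exact abs_le_of_sq_le_sq' (h1.trans (hJ.row i)) hJ.nonneg |> abs_le.2

end Pool.Agent.MP_9e8696_an.H12
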