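import Pool.Agent.MP_9e8696_an.H12.Stein

/-!
The gain inequality, the two-sided covariance bound and the bridge from `exp(x'Qx)/Z`.
-/

namespace Pool.Agent.MP_9e8696_an.H12

open Finset

variable {ι : Type*} [Fintype ι] [DecidableEq ι]
variable {J : ι → ι → ℝ} {d : ℝ} {p : (ι → Bool) → ℝ}

lemma ex_lf_mul (b : ι → ℝ) (F : (ι → Bool) → ℝ) :
    Ex p (fun x => lf b x * F x) = ∑ i, b i * Ex p (fun x => sg (x i) * F x) := by
  have : (fun x => lf b x * F x) = fun x => ∑ i, b i * (sg (x i) * F x) := by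
    funext x; simp only [lf, Finset.sum_mul]
    exact Finset.sum_congr rfl fun i _ => by ring
  rw [this, ex_sum]
  exact Finset.sum_congr rfl fun i _ => ex_mul _ _

/-- Stein for a linear form. -/
lemma stein_lf (hJ : Small J d) (hp : Gibbs J p) (b : ι → ℝ) (F : (ι → Bool) → ℝ) :
    Ex p (fun x => lf b x * F x)
      = Ex p (fun x => (∑ i, b i * mm J i x) * F x)
        + Ex p (fun x => ∑ i, b i * (ss J i x * dd i F x)) := by
  rw [ex_lf_mul]
  have e1 : Ex p (fun x => (∑ i, b i * mm J i x) * F x)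
      = ∑ i, b i * Ex p (fun x => mm J i x * F x) := by
    have : (fun x => (∑ i, b i * mm J i x) * F x) = fun x => ∑ i, b i * (mm J i x * F x) := by
      funext x; simp only [Finset.sum_mul]
      exact Finset.sum_congr rfl fun i _ => by ring
    rw [this, ex_sum]
    exact Finset.sum_congr rfl fun i _ => ex_mul _ _
  rw [e1, ex_sum, ← Finset.sum_add_distrib]
  refine Finset.sum_congr rfl fun i _ => ?_
  rw [ex_mul, stein hJ hp]; ring

/-- The gain inequality in terms of `J`. -/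
theorem gain_J (hJ : Small J d) (hd : d ≤ 1 / 4) (hp : Gibbs J p) (b : ι → ℝ) :
    ∑ i, b i ^ 2 + Ex p (fun x => ∑ i, ∑ j, J i j * (b i * ss J i x) * (b j * ss J j x))
        - 6 * ∑ i, b i ^ 2 * ∑ j, J i j ^ 2
      ≤ Ex p (fun x => lf b x ^ 2) := by
  set M : (ι → Bool) → ℝ := fun x => ∑ i, b i * mm J i x with hM
  have h1 := stein_lf hJ hp b (lf b)
  have h2 := stein_lf hJ hp b M
  have e1 : Ex p (fun x => lf b x ^ 2) = Ex p (fun x => lf b x * lf b x) := by simp only [sq]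
  have e2 : Ex p (fun x => (∑ i, b i * mm J i x) * lf b x) = Ex p (fun x => lf b x * M x) := by
    congr 1; funext x; simp only [hM]; ring
  have h3 : 0 ≤ Ex p (fun x => (∑ i, b i * mm J i x) * M x) :=
    ex_nonneg hp fun x => mul_self_nonneg _
  have h4 : ∑ i, b i ^ 2 - 2 * ∑ i, b i ^ 2 * ∑ j, J i j ^ 2
      ≤ Ex p (fun x => ∑ i, b i * (ss J i x * dd i (lf b) x)) := by
    rw [ex_sum, Finset.mul_sum, ← Finset.sum_sub_distrib]
    refine Finset.sum_le_sum fun i _ => ?_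
    have e : (fun x => b i * (ss J i x * dd i (lf b) x))
        = fun x => b i ^ 2 - b i ^ 2 * mm J i x ^ 2 := by
      funext x; rw [dd_lf]; simp only [ss]; ring
    rw [e, ex_sub, ex_const hp, ex_mul]
    have := mul_le_mul_of_nonneg_left (mm_sq_ex hJ hd hp i) (sq_nonneg (b i))
    linarith
  have h5 : ∀ x, ∑ i, ∑ j, J i j * (b i * ss J i x) * (b j * ss J j x)
      - 4 * ∑ i, b i ^ 2 * ∑ j, J i j ^ 2 ≤ ∑ i, b i * (ss J i x * dd i M x) := by
    intro x
    have hpt : ∀ i j, J i j * (b i * ss J i x) * (b j * ss J j x)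
        - 2 * (b i ^ 2 * J i j ^ 2 + b j ^ 2 * J j i ^ 2)
        ≤ b i * (ss J i x * (b j * dd i (mm J j) x)) := by
      intro i j
      have h := dd_mm (J := J) i j x
      rw [hJ.symm j i] at h ⊢
      set ε := dd i (mm J j) x - ss J j x * J i j with hε
      have e : dd i (mm J j) x = ss J j x * J i j + ε := by rw [hε]; ring
      rw [e]
      have hs0 := ss_nonneg (J := J) i x
      have hs1 := ss_le_one (J := J) i x
      have h6 : |b i * b j| ≤ (b i ^ 2 + b j ^ 2) / 2 := by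
        rw [abs_le]; constructor <;> nlinarith [sq_nonneg (b i + b j), sq_nonneg (b i - b j)]
      have h7 : |ss J i x * ε| ≤ 4 * J i j ^ 2 := by
        rw [abs_mul, abs_of_nonneg hs0]
        nlinarith [abs_nonneg ε]
      have h8 : |b i * b j * (ss J i x * ε)| ≤ (b i ^ 2 + b j ^ 2) / 2 * (4 * J i j ^ 2) := by
        rw [abs_mul]
        exact mul_le_mul h6 h7 (abs_nonneg _) (by positivity)
      have h9 := (abs_le.1 h8).1
      nlinarith
    have e3 : ∑ i, b i * (ss J i x * dd i M x)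
        = ∑ i, ∑ j, b i * (ss J i x * (b j * dd i (mm J j) x)) := by
      refine Finset.sum_congr rfl fun i _ => ?_
      simp only [hM]
      rw [dd_sum]
      simp only [dd_cmul, Finset.mul_sum]
    have e4 : ∑ i, ∑ j, b j ^ 2 * J j i ^ 2 = ∑ i, ∑ j, b i ^ 2 * J i j ^ 2 := Finset.sum_comm
    have e5 : ∑ i, b i ^ 2 * ∑ j, J i j ^ 2 = ∑ i, ∑ j, b i ^ 2 * J i j ^ 2 := by
      simp only [Finset.mul_sum]
    have h10 := Finset.sum_le_sum (s := univ) fun i _ =>
      Finset.sum_le_sum (s := univ) fun j _ => hpt i j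
    have e6 : ∑ i, ∑ j, (J i j * (b i * ss J i x) * (b j * ss J j x)
        - 2 * (b i ^ 2 * J i j ^ 2 + b j ^ 2 * J j i ^ 2))
        = ∑ i, ∑ j, J i j * (b i * ss J i x) * (b j * ss J j x)
          - 2 * (∑ i, ∑ j, b i ^ 2 * J i j ^ 2 + ∑ i, ∑ j, b j ^ 2 * J j i ^ 2) := by
      simp only [Finset.mul_sum, ← Finset.sum_add_distrib, ← Finset.sum_sub_distrib]
    rw [e6, e4] at h10
    rw [e3, e5]
    linarith
  have h6 := ex_mono hp h5
  rw [ex_sub, ex_const hp] at h6
  rw [e1, h1, e2, h2]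
  linarith

/-- Lower bound of the second moment. -/
theorem lf_sq_ge (hJ : Small J d) (hd : d ≤ 1 / 4) (hp : Gibbs J p) (b : ι → ℝ) :
    (1 - 3 * d) * ∑ i, b i ^ 2 ≤ Ex p (fun x => lf b x ^ 2) := by
  have h := gain_J hJ hd hp b
  have h1 : -(d * ∑ i, b i ^ 2)
      ≤ Ex p (fun x => ∑ i, ∑ j, J i j * (b i * ss J i x) * (b j * ss J j x)) := by
    rw [← ex_const hp (-(d * ∑ i, b i ^ 2))]
    refine ex_mono hp fun x => ?_
    have h2 := (abs_le.1 (hJ.quad (fun i => b i * ss J i x))).1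
    have h3 : ∑ i, (b i * ss J i x) ^ 2 ≤ ∑ i, b i ^ 2 := by
      refine Finset.sum_le_sum fun i _ => ?_
      have hs0 := ss_nonneg (J := J) i x
      have hs1 := ss_le_one (J := J) i x
      have : ss J i x ^ 2 ≤ 1 := by nlinarith
      rw [mul_pow]; nlinarith [sq_nonneg (b i)]
    have := mul_le_mul_of_nonneg_left h3 hJ.nonneg
    linarith
  have h2 : ∑ i, b i ^ 2 * ∑ j, J i j ^ 2 ≤ d ^ 2 * ∑ i, b i ^ 2 := by
    rw [Finset.mul_sum]
    refine Finset.sum_le_sum fun i _ => ?_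
    have := mul_le_mul_of_nonneg_left (hJ.row i) (sq_nonneg (b i))
    linarith
  have h0 : 0 ≤ ∑ i, b i ^ 2 := Finset.sum_nonneg fun i _ => sq_nonneg _
  have h4 : 6 * d ^ 2 ≤ 2 * d := by nlinarith [hJ.nonneg]
  have := mul_le_mul_of_nonneg_right h4 h0
  nlinarith

/-- Sharp upper bound of the second moment. -/
theorem lf_sq_le' (hJ : Small J d) (hd : d ≤ 1 / 4) (hp : Gibbs J p) (b : ι → ℝ) :
    Ex p (fun x => lf b x ^ 2) ≤ (1 + 3 * d) * ∑ i, b i ^ 2 := by
  have h := poincare_sharp hJ (by linarith) hp (lf b)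
  rw [ex_odd hp (lf b) (lf_neg b)] at h
  simp only [dd_lf, ex_const hp] at h
  have h0 : 0 ≤ Ex p (fun x => lf b x ^ 2) := ex_nonneg hp fun x => sq_nonneg _
  have hd0 := hJ.nonneg
  have h1 : 1 ≤ (1 + 3 * d) * (1 - d - d ^ 2) := by nlinarith [mul_nonneg hd0 hd0]
  have h2 := mul_le_mul_of_nonneg_left h (by linarith : 0 ≤ 1 + 3 * d)
  nlinarith

/-- Two-sided bound: `|E<b,x>^2 - |b|^2| ≤ 3 d |b|^2`. -/
theorem lf_sq_abs (hJ : Small J d) (hd : d ≤ 1 / 4) (hp : Gibbs J p) (b : ι → ℝ) :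
    |Ex p (fun x => lf b x ^ 2) - ∑ i, b i ^ 2| ≤ 3 * d * ∑ i, b i ^ 2 := by
  have h1 := lf_sq_ge hJ hd hp b
  have h2 := lf_sq_le' hJ hd hp b
  rw [abs_le]; constructor <;> linarith

lemma ex_lf_lf (u v : ι → ℝ) : Ex p (fun x => lf u x * lf v x)
    = ∑ i, ∑ j, Ex p (fun x => sg (x i) * sg (x j)) * u i * v j := by
  have : (fun x => lf u x * lf v x)
      = fun x => ∑ i, ∑ j, u i * v j * (sg (x i) * sg (x j)) := by
    funext x; simp only [lf, Finset.sum_mul_sum]
    exact Finset.sum_congr rfl fun i _ => Finset.sum_congr rfl fun j _ => by ring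
  rw [this, ex_sum]
  refine Finset.sum_congr rfl fun i _ => ?_
  rw [ex_sum]
  exact Finset.sum_congr rfl fun j _ => by rw [ex_mul]; ring

/-- The covariance matrix minus the identity is small. -/
theorem cov_small (hJ : Small J d) (hd : d ≤ 1 / 4) (hp : Gibbs J p) :
    Small (fun i j => Ex p (fun x => sg (x i) * sg (x j)) - if i = j then 1 else 0) (3 * d) where
  symm i j := by
    have e : (fun x : ι → Bool => sg (x i) * sg (x j)) = fun x => sg (x j) * sg (x i) := by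
      funext x; ring
    rw [e]
    by_cases h : i = j
    · simp [h]
    · simp [h, Ne.symm h]
  diag i := by simp only [sg_mul_self, ex_const hp]; simp
  nonneg := by linarith [hJ.nonneg]
  quad u := by
    have h := lf_sq_abs hJ hd hp u
    simp only [sq] at h ⊢
    rw [ex_lf_lf] at h
    simp only [sub_mul, Finset.sum_sub_distrib, ite_mul, one_mul, zero_mul, Finset.sum_ite_eq,
      Finset.mem_univ, if_true]
    exact h

/-- Bilinear covariance bound. -/
theorem cov_bil (hJ : Small J d) (hd : d ≤ 1 / 4) (hp : Gibbs J p) (u v : ι → ℝ) :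
    (Ex p (fun x => lf u x * lf v x) - ∑ i, u i * v i) ^ 2
      ≤ 9 * d ^ 2 * (∑ i, u i ^ 2) * ∑ i, v i ^ 2 := by
  have h := (cov_small hJ hd hp).vec v
  have e : Ex p (fun x => lf u x * lf v x) - ∑ i, u i * v i
      = ∑ i, u i * ∑ j, (Ex p (fun x => sg (x i) * sg (x j)) - if i = j then 1 else 0) * v j := by
    rw [ex_lf_lf, ← Finset.sum_sub_distrib]
    refine Finset.sum_congr rfl fun i _ => ?_
    simp only [sub_mul, Finset.sum_sub_distrib, ite_mul, one_mul, zero_mul, Finset.sum_ite_eq,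
      Finset.mem_univ, if_true, mul_sub, Finset.mul_sum]
    congr 1
    exact Finset.sum_congr rfl fun j _ => by ring
  rw [e]
  have h2 := Finset.sum_mul_sq_le_sq_mul_sq univ u
    (fun i => ∑ j, (Ex p (fun x => sg (x i) * sg (x j)) - if i = j then 1 else 0) * v j)
  have h0 : 0 ≤ ∑ i, u i ^ 2 := Finset.sum_nonneg fun i _ => sq_nonneg _
  have h3 := mul_le_mul_of_nonneg_left h h0
  calc _ ≤ _ := h2
    _ ≤ _ := h3
    _ = _ := by ring

/-- Twice the off-diagonal part. -/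
def off2 (Q : ι → ι → ℝ) : ι → ι → ℝ := fun i j => if i = j then 0 else 2 * Q i j

/-- `Q` is symmetric and `0 ≤ Q ≤ δ`. -/
structure Psd (Q : ι → ι → ℝ) (δ : ℝ) : Prop where
  symm : ∀ i j, Q i j = Q j i
  nonneg : 0 ≤ δ
  lower : ∀ u : ι → ℝ, 0 ≤ ∑ i, ∑ j, Q i j * u i * u j
  upper : ∀ u : ι → ℝ, ∑ i, ∑ j, Q i j * u i * u j ≤ δ * ∑ i, u i ^ 2

variable {Q : ι → ι → ℝ} {δ : ℝ}

lemma off2_quad (Q : ι → ι → ℝ) (u v : ι → ℝ) :
    ∑ i, ∑ j, off2 Q i j * u i * v j
      = 2 * ∑ i, ∑ j, Q i j * u i * v j - 2 * ∑ i, Q i i * u i * v i := by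
  rw [Finset.mul_sum, Finset.mul_sum, ← Finset.sum_sub_distrib]
  refine Finset.sum_congr rfl fun i _ => ?_
  have e : ∀ j, off2 Q i j * u i * v j
      = 2 * (Q i j * u i * v j) - if i = j then 2 * (Q i j * u i * v j) else 0 := by
    intro j; simp only [off2]; split_ifs <;> ring
  simp only [e, Finset.sum_sub_distrib, Finset.sum_ite_eq, Finset.mem_univ, if_true,
    Finset.mul_sum]

lemma Psd.diag_nonneg (hQ : Psd Q δ) (i : ι) : 0 ≤ Q i i := by
  have h := hQ.lower (fun k => if k = i then 1 else 0)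
  simpa using h

lemma Psd.diag_le (hQ : Psd Q δ) (i : ι) : Q i i ≤ δ := by
  have h := hQ.upper (fun k => if k = i then 1 else 0)
  simpa using h

theorem Psd.small (hQ : Psd Q δ) : Small (off2 Q) (2 * δ) where
  symm i j := by
    simp only [off2, eq_comm, hQ.symm i j]
  diag i := by simp [off2]
  nonneg := by linarith [hQ.nonneg]
  quad u := by
    rw [off2_quad]
    have h1 := hQ.lower u
    have h2 := hQ.upper u
    have h3 : 0 ≤ ∑ i, Q i i * u i * u i :=
      Finset.sum_nonneg fun i _ => by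
        rw [mul_assoc]; exact mul_nonneg (hQ.diag_nonneg i) (mul_self_nonneg _)
    have h4 : ∑ i, Q i i * u i * u i ≤ δ * ∑ i, u i ^ 2 := by
      rw [Finset.mul_sum]
      refine Finset.sum_le_sum fun i _ => ?_
      rw [mul_assoc, ← sq]
      exact mul_le_mul_of_nonneg_right (hQ.diag_le i) (sq_nonneg _)
    rw [abs_le]; constructor <;> linarith

omit [DecidableEq ι] in
/-- `|Q u|^2 ≤ δ u'Qu`. -/
lemma Psd.vec (hQ : Psd Q δ) (u : ι → ℝ) :
    ∑ i, (∑ j, Q i j * u j) ^ 2 ≤ δ * ∑ i, ∑ j, Q i j * u i * u j := by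
  set v : ι → ℝ := fun i => ∑ j, Q i j * u j with hv
  set A := ∑ i, v i ^ 2 with hA
  set B := ∑ i, ∑ j, Q i j * u i * u j with hB
  have hA0 : 0 ≤ A := Finset.sum_nonneg fun i _ => sq_nonneg _
  have e1 : ∑ i, ∑ j, Q i j * v i * u j = A := by
    refine Finset.sum_congr rfl fun i _ => ?_
    rw [sq]
    conv_rhs => rw [hv]; simp only; rw [Finset.mul_sum]
    exact Finset.sum_congr rfl fun j _ => by simp only [hv]; ring
  have e2 : ∑ i, ∑ j, Q i j * u i * v j = A := by
    rw [← e1, Finset.sum_comm]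
    exact Finset.sum_congr rfl fun i _ => Finset.sum_congr rfl fun j _ => by
      rw [hQ.symm j i]; ring
  have key : ∀ t : ℝ, 0 ≤ t ^ 2 * B - 2 * t * A + δ * A := by
    intro t
    have h1 := hQ.lower (fun i => t * u i - v i)
    have h2 := hQ.upper v
    have e3 : ∑ i, ∑ j, Q i j * (t * u i - v i) * (t * u j - v j)
        = t ^ 2 * B - t * ∑ i, ∑ j, Q i j * v i * u j - t * ∑ i, ∑ j, Q i j * u i * v j
          + ∑ i, ∑ j, Q i j * v i * v j := by
      simp only [hB, Finset.mul_sum, ← Finset.sum_sub_distrib, ← Finset.sum_add_distrib]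
      exact Finset.sum_congr rfl fun i _ => Finset.sum_congr rfl fun j _ => by ring
    rw [e3, e1, e2] at h1
    linarith
  have hB0 : 0 ≤ B := hQ.lower u
  rcases hQ.nonneg.eq_or_lt with h0 | hpos
  · have hB1 : B ≤ 0 := by have := hQ.upper u; rw [← h0] at this; simpa using this
    have := key 1
    rw [← h0] at this ⊢
    nlinarith
  · have h := key δ
    have : δ * A ≤ δ * (δ * B) := by nlinarith
    exact le_of_mul_le_mul_left this hpos

lemma Psd.row (hQ : Psd Q δ) (i : ι) : ∑ j, off2 Q i j ^ 2 ≤ 4 * δ * Q i i := by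
  have h := hQ.vec (fun k => if k = i then 1 else 0)
  simp only [mul_ite, mul_one, mul_zero, Finset.sum_ite_eq', Finset.mem_univ, if_true] at h
  have h2 : ∑ j, off2 Q i j ^ 2 ≤ 4 * ∑ j, Q j i ^ 2 := by
    rw [Finset.mul_sum]
    refine Finset.sum_le_sum fun j _ => ?_
    simp only [off2]
    split_ifs
    · nlinarith [sq_nonneg (Q j i)]
    · rw [hQ.symm i j]; nlinarith
  linarith

/-- **Gain inequality**: `E<b,x>^2 ≥ |b|^2 + b'Qb - 3 ∑ b_i^2 Q_ii`. -/
theorem gain (hQ : Psd Q δ) (hδ : δ ≤ 1 / 25) (hp : Gibbs (off2 Q) p) (b : ι → ℝ) :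
    ∑ i, b i ^ 2 + ∑ i, ∑ j, Q i j * b i * b j - 3 * ∑ i, b i ^ 2 * Q i i
      ≤ Ex p (fun x => lf b x ^ 2) := by
  have hJ := hQ.small
  have hd : 2 * δ ≤ 1 / 4 := by linarith
  have h := gain_J hJ hd hp b
  set J := off2 Q with hJdef
  set T := ∑ i, b i ^ 2 * Q i i with hT
  have hT0 : 0 ≤ T := Finset.sum_nonneg fun i _ => mul_nonneg (sq_nonneg _) (hQ.diag_nonneg i)
  have hR : ∑ i, b i ^ 2 * ∑ j, J i j ^ 2 ≤ 4 * δ * T := by
    rw [hT, Finset.mul_sum]
    refine Finset.sum_le_sum fun i _ => ?_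
    have := mul_le_mul_of_nonneg_left (hQ.row i) (sq_nonneg (b i))
    linarith
  have h1 : ∀ x, ∑ i, ∑ j, Q i j * b i * b j - 2 * δ * ∑ i, b i ^ 2 * mm J i x ^ 2 - 2 * T
      ≤ ∑ i, ∑ j, J i j * (b i * ss J i x) * (b j * ss J j x) := by
    intro x
    rw [hJdef, off2_quad, ← hJdef]
    set u : ι → ℝ := fun i => b i * ss J i x with hu
    set v : ι → ℝ := fun i => b i * mm J i x ^ 2 with hv
    have hb : ∀ i, b i = u i + v i := fun i => by simp only [hu, hv, ss]; ring
    have h2 := hQ.lower (fun i => u i - v i)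
    have h3 := hQ.upper v
    have e : ∑ i, ∑ j, Q i j * b i * b j + ∑ i, ∑ j, Q i j * (u i - v i) * (u j - v j)
        = 2 * ∑ i, ∑ j, Q i j * u i * u j + 2 * ∑ i, ∑ j, Q i j * v i * v j := by
      simp only [Finset.mul_sum, ← Finset.sum_add_distrib]
      exact Finset.sum_congr rfl fun i _ => Finset.sum_congr rfl fun j _ => by
        rw [hb i, hb j]; ring
    have h4 : ∑ i, v i ^ 2 ≤ ∑ i, b i ^ 2 * mm J i x ^ 2 := by
      refine Finset.sum_le_sum fun i _ => ?_
      have hm := mm_sq_le_one (J := J) i x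
      have : 0 ≤ b i ^ 2 * mm J i x ^ 2 * (1 - mm J i x ^ 2) :=
        mul_nonneg (mul_nonneg (sq_nonneg _) (sq_nonneg _)) (by linarith)
      simp only [hv]; nlinarith
    have h5 : ∑ i, Q i i * u i * u i ≤ T := by
      refine Finset.sum_le_sum fun i _ => ?_
      have hs0 := ss_nonneg (J := J) i x
      have hs1 := ss_le_one (J := J) i x
      have : 0 ≤ b i ^ 2 * Q i i * (1 - ss J i x ^ 2) :=
        mul_nonneg (mul_nonneg (sq_nonneg _) (hQ.diag_nonneg i)) (by nlinarith)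
      simp only [hu]; nlinarith
    have h6 := mul_le_mul_of_nonneg_left h4 hQ.nonneg
    linarith
  have h2 := ex_mono hp h1
  rw [ex_sub, ex_sub, ex_const hp, ex_const hp, ex_mul, ex_sum] at h2
  have h3 : ∑ i, Ex p (fun x => b i ^ 2 * mm J i x ^ 2) ≤ 2 * ∑ i, b i ^ 2 * ∑ j, J i j ^ 2 := by
    rw [Finset.mul_sum]
    refine Finset.sum_le_sum fun i _ => ?_
    rw [ex_mul]
    have := mul_le_mul_of_nonneg_left (mm_sq_ex hJ hd hp i) (sq_nonneg (b i))
    linarith
  have hδ0 := hQ.nonneg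
  have h4 := mul_le_mul_of_nonneg_left (h3.trans (mul_le_mul_of_nonneg_left hR
    (by norm_num : (0 : ℝ) ≤ 2))) (by linarith : 0 ≤ 2 * δ)
  have h5 : (24 * δ + 16 * δ ^ 2) * T ≤ 1 * T :=
    mul_le_mul_of_nonneg_right (by nlinarith) hT0
  nlinarith

omit [DecidableEq ι] in
lemma qf_eq (A : ι → ι → ℝ) (x : ι → Bool) : qf A x = ∑ i, lf (A i) x * sg (x i) := by
  simp only [qf, lf, Finset.sum_mul]
  exact Finset.sum_congr rfl fun i _ => Finset.sum_congr rfl fun j _ => by ring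

lemma qf_fl {A : ι → ι → ℝ} (hA : ∀ i j, A i j = A j i) (x : ι → Bool) (i : ι) :
    qf A (fl x i) = qf A x - 4 * sg (x i) * lf (A i) x + 4 * A i i := by
  rw [qf_eq, qf_eq]
  simp only [lf_fl]
  rw [lin_fl (fun k => lf (A k) x - 2 * A k i * sg (x i)) x i]
  have e : ∑ j, (lf (A j) x - 2 * A j i * sg (x i)) * sg (x j)
      = ∑ j, lf (A j) x * sg (x j) - 2 * sg (x i) * lf (A i) x := by
    conv_rhs => rw [lf, Finset.mul_sum, ← Finset.sum_sub_distrib]
    exact Finset.sum_congr rfl fun j _ => by rw [hA j i]; ring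
  rw [e]
  have hs := sg_mul_self (x i)
  linear_combination (4 * A i i) * hs

lemma hf_off2 (Q : ι → ι → ℝ) (x : ι → Bool) (i : ι) :
    hf (off2 Q) x i = 2 * lf (Q i) x - 2 * Q i i * sg (x i) := by
  have e : ∀ j, off2 Q i j * sg (x j)
      = 2 * (Q i j * sg (x j)) - if i = j then 2 * Q i j * sg (x j) else 0 := by
    intro j; simp only [off2]; split_ifs <;> ring
  simp only [hf, lf, e, Finset.sum_sub_distrib, Finset.sum_ite_eq, Finset.mem_univ, if_true,
    Finset.mul_sum]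

omit [DecidableEq ι] in
lemma qf_neg (A : ι → ι → ℝ) (x : ι → Bool) : qf A (fun i => !x i) = qf A x := by
  simp only [qf, sg_not]
  exact Finset.sum_congr rfl fun i _ => Finset.sum_congr rfl fun j _ => by ring

/-- **Bridge**: the weight `exp(x'Qx + c)/Z` is the Gibbs weight of `off2 Q`. -/
theorem gibbs_of (hQ : ∀ i j, Q i j = Q j i) (H : (ι → Bool) → ℝ) (c : ℝ)
    (hH : ∀ x, H x = qf Q x + c) :
    Gibbs (off2 Q) (fun x => Real.exp (H x) / ∑ y, Real.exp (H y)) := by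
  have hZ : 0 < ∑ y, Real.exp (H y) :=
    Finset.sum_pos (fun y _ => Real.exp_pos _) Finset.univ_nonempty
  refine ⟨fun x => div_pos (Real.exp_pos _) hZ, ?_, fun x i => ?_, fun x => ?_⟩
  · rw [← Finset.sum_div, div_self hZ.ne']
  · rw [div_mul_eq_mul_div, ← Real.exp_add, hH, hH x, qf_fl hQ, hf_off2]
    congr 2
    have hs := sg_mul_self (x i)
    linear_combination (-4 * Q i i) * hs
  · rw [hH, hH x, qf_neg]

lemma dd_qf {A : ι → ι → ℝ} (hA : ∀ i j, A i j = A j i) (hA0 : ∀ i, A i i = 0)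
    (x : ι → Bool) (i : ι) : dd i (qf A) x = 2 * lf (A i) x := by
  have hs := sg_mul_self (x i)
  simp only [dd, qf_fl hA, hA0]
  linear_combination (2 * lf (A i) x) * hs

end Pool.Agent.MP_9e8696_an.H12
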