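import Pool.Agent.MP_9e8696_an.H12.Defs

/-!
The Poincaré inequality for Ising measures with small operator norm (discrete Bochner argument).
-/

namespace Pool.Agent.MP_9e8696_an.H12

open Finset

variable {ι : Type*} [Fintype ι] [DecidableEq ι]

/-- The flip rate `exp(-x_i h_i)`. -/
noncomputable def rate (J : ι → ι → ℝ) (i : ι) (x : ι → Bool) : ℝ :=
  Real.exp (-(sg (x i) * hf J x i))

/-- The generator (with the positive sign). -/
noncomputable def gen (J : ι → ι → ℝ) (g : (ι → Bool) → ℝ) (x : ι → Bool) : ℝ :=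
  ∑ i, rate J i x * grad i g x

variable {J : ι → ι → ℝ} {d : ℝ} {p : (ι → Bool) → ℝ}

omit [DecidableEq ι] in
lemma rate_pos (i : ι) (x : ι → Bool) : 0 < rate J i x := Real.exp_pos _

lemma rate_mul_fl (hJ : Small J d) (i : ι) (x : ι → Bool) :
    rate J i x * rate J i (fl x i) = 1 := by
  simp only [rate, hf_fl_same hJ, sg_fl_same, ← Real.exp_add]
  simp

lemma wt_fl (hJ : Small J d) (hp : Gibbs J p) (i : ι) (x : ι → Bool) :
    p (fl x i) * rate J i (fl x i) = p x * rate J i x := by
  rw [hp.flip, mul_assoc]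
  congr 1
  simp only [rate, hf_fl_same hJ, sg_fl_same, ← Real.exp_add]
  congr 1; ring

/-- Summation by parts against an invariant weight. -/
lemma sbp (i : ι) (W : (ι → Bool) → ℝ) (hW : ∀ x, W (fl x i) = W x)
    (f g : (ι → Bool) → ℝ) :
    ∑ x, W x * (f x * grad i g x) = (∑ x, W x * (grad i f x * grad i g x)) / 2 := by
  have h := sum_fl i (fun x => W x * (f x * grad i g x))
  simp only [hW, grad_fl] at h
  have e : ∑ x, W x * (grad i f x * grad i g x)
      = ∑ x, W x * (f x * grad i g x) + ∑ x, W x * (f (fl x i) * -grad i g x) := by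
    rw [← Finset.sum_add_distrib]
    refine Finset.sum_congr rfl fun x _ => ?_
    have : grad i f x = f x - f (fl x i) := rfl
    rw [this]; ring
  rw [e, h]; ring

lemma dirichlet (hJ : Small J d) (hp : Gibbs J p) (f g : (ι → Bool) → ℝ) :
    ∑ x, p x * (f x * gen J g x)
      = (∑ i, ∑ x, p x * rate J i x * (grad i f x * grad i g x)) / 2 := by
  have e : ∑ x, p x * (f x * gen J g x)
      = ∑ i, ∑ x, p x * rate J i x * (f x * grad i g x) := by
    rw [Finset.sum_comm]
    refine Finset.sum_congr rfl fun x _ => ?_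
    simp only [gen, Finset.mul_sum]
    exact Finset.sum_congr rfl fun i _ => by ring
  rw [e, Finset.sum_div]
  exact Finset.sum_congr rfl fun i _ => sbp i _ (wt_fl hJ hp i) f g

/-- The off-diagonal Bochner terms are nonnegative. -/
lemma bochner_pair (hJ : Small J d) (hp : Gibbs J p) (g : (ι → Bool) → ℝ) {i j : ι}
    (hij : i ≠ j) :
    0 ≤ ∑ x, p x * (rate J i x * grad i g x * (rate J j x * grad j g x)
      * Real.exp (J i j * sg (x i) * sg (x j))) := by
  set W : (ι → Bool) → ℝ := fun x =>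
    p x * rate J i x * rate J j x * Real.exp (J i j * sg (x i) * sg (x j)) with hW
  have hWi : ∀ x, W (fl x i) = W x := by
    intro x
    simp only [hW]
    rw [wt_fl hJ hp, mul_assoc (p x * rate J i x), mul_assoc (p x * rate J i x)]
    congr 1
    simp only [rate, hf_fl, sg_fl_same, fl_ne x hij.symm, ← Real.exp_add]
    congr 1
    rw [hJ.symm j i]; ring
  have hWj : ∀ x, W (fl x j) = W x := by
    intro x
    simp only [hW]
    have e1 : ∀ y, p y * rate J i y * rate J j y * Real.exp (J i j * sg (y i) * sg (y j))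
        = p y * rate J j y * (rate J i y * Real.exp (J i j * sg (y i) * sg (y j))) := by
      intro y; ring
    rw [e1, e1, wt_fl hJ hp]
    congr 1
    simp only [rate, hf_fl, sg_fl_same, fl_ne x hij, ← Real.exp_add]
    congr 1
    ring
  have hW0 : ∀ x, 0 ≤ W x := fun x =>
    mul_nonneg (mul_nonneg (mul_nonneg (hp.pos x).le (rate_pos _ _).le) (rate_pos _ _).le)
      (Real.exp_pos _).le
  have e0 : ∑ x, p x * (rate J i x * grad i g x * (rate J j x * grad j g x)
      * Real.exp (J i j * sg (x i) * sg (x j)))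
      = ∑ x, W x * (grad j g x * grad i g x) :=
    Finset.sum_congr rfl fun x _ => by simp only [hW]; ring
  have hc : ∀ x, grad i (grad j g) x = grad j (grad i g) x := by
    intro x
    simp only [grad, fl_comm x i j]; ring
  rw [e0, sbp i W hWi (grad j g) g]
  have e1 : ∑ x, W x * (grad i (grad j g) x * grad i g x)
      = ∑ x, W x * (grad i g x * grad j (grad i g) x) :=
    Finset.sum_congr rfl fun x _ => by rw [hc]; ring
  rw [e1, sbp j W hWj (grad i g) (grad i g)]
  have : 0 ≤ ∑ x, W x * (grad j (grad i g) x * grad j (grad i g) x) :=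
    Finset.sum_nonneg fun x _ => mul_nonneg (hW0 x) (mul_self_nonneg _)
  linarith

/-- The pointwise bound for the correction terms. -/
lemma corr_le (hJ : Small J d) (hd : d ≤ 1) (u : ι → ℝ) (x : ι → Bool) :
    ∑ i, ∑ j, u i * u j * (Real.exp (J i j * sg (x i) * sg (x j)) - 1)
      ≤ (d + d ^ 2) * ∑ i, u i ^ 2 := by
  have h1 := (abs_le.1 (hJ.quad (fun i => sg (x i) * u i))).2
  have e1 : ∑ i, (sg (x i) * u i) ^ 2 = ∑ i, u i ^ 2 :=
    Finset.sum_congr rfl fun i _ => by rw [mul_pow, sg_sq, one_mul]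
  rw [e1] at h1
  have h2 : ∀ i j, u i * u j * (Real.exp (J i j * sg (x i) * sg (x j)) - 1)
      ≤ J i j * (sg (x i) * u i) * (sg (x j) * u j)
        + (J i j ^ 2 * u i ^ 2 + J j i ^ 2 * u j ^ 2) / 2 := by
    intro i j
    set t := J i j * sg (x i) * sg (x j) with ht
    have habs : |t| ≤ 1 := by
      rw [ht, abs_mul, abs_mul, abs_sg, abs_sg, mul_one, mul_one]
      exact (hJ.entry i j).trans hd
    have hexp := Real.abs_exp_sub_one_sub_id_le habs
    have ht2 : t ^ 2 = J i j ^ 2 := by rw [ht, mul_pow, mul_pow, sg_sq, sg_sq]; ring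
    rw [ht2] at hexp
    have h3 : u i * u j * (Real.exp t - 1 - t) ≤ |u i * u j| * J i j ^ 2 := by
      calc u i * u j * (Real.exp t - 1 - t) ≤ |u i * u j * (Real.exp t - 1 - t)| := le_abs_self _
        _ = |u i * u j| * |Real.exp t - 1 - t| := abs_mul _ _
        _ ≤ |u i * u j| * J i j ^ 2 := mul_le_mul_of_nonneg_left hexp (abs_nonneg _)
    have h4 : |u i * u j| ≤ (u i ^ 2 + u j ^ 2) / 2 := by
      rw [abs_le]; constructor <;> nlinarith [sq_nonneg (u i + u j), sq_nonneg (u i - u j)]
    have h5 : |u i * u j| * J i j ^ 2 ≤ (u i ^ 2 + u j ^ 2) / 2 * J i j ^ 2 :=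
      mul_le_mul_of_nonneg_right h4 (sq_nonneg _)
    have e : J i j * (sg (x i) * u i) * (sg (x j) * u j) = u i * u j * t := by rw [ht]; ring
    rw [e, hJ.symm j i]
    nlinarith
  have h6 : ∑ i, ∑ j, J i j ^ 2 * u i ^ 2 ≤ d ^ 2 * ∑ i, u i ^ 2 := by
    rw [Finset.mul_sum]
    refine Finset.sum_le_sum fun i _ => ?_
    rw [← Finset.sum_mul]
    exact mul_le_mul_of_nonneg_right (hJ.row i) (sq_nonneg _)
  have h7 : ∑ i, ∑ j, J j i ^ 2 * u j ^ 2 = ∑ i, ∑ j, J i j ^ 2 * u i ^ 2 := Finset.sum_comm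
  calc ∑ i, ∑ j, u i * u j * (Real.exp (J i j * sg (x i) * sg (x j)) - 1)
      ≤ ∑ i, ∑ j, (J i j * (sg (x i) * u i) * (sg (x j) * u j)
        + (J i j ^ 2 * u i ^ 2 + J j i ^ 2 * u j ^ 2) / 2) :=
        Finset.sum_le_sum fun i _ => Finset.sum_le_sum fun j _ => h2 i j
    _ = ∑ i, ∑ j, J i j * (sg (x i) * u i) * (sg (x j) * u j)
        + (∑ i, ∑ j, J i j ^ 2 * u i ^ 2 + ∑ i, ∑ j, J j i ^ 2 * u j ^ 2) / 2 := by
        simp only [Finset.sum_add_distrib, ← Finset.sum_div]
    _ ≤ (d + d ^ 2) * ∑ i, u i ^ 2 := by rw [h7]; linarith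

lemma rate_sq_eq (hJ : Small J d) (hp : Gibbs J p) (i : ι) (F : (ι → Bool) → ℝ)
    (hF : ∀ x, F (fl x i) = F x) :
    ∑ x, p x * (rate J i x ^ 2 * F x) = ∑ x, p x * F x := by
  have h := sum_fl i (fun x => p x * rate J i x * (rate J i x * F x))
  simp only [wt_fl hJ hp, hF] at h
  have e1 : ∑ x, p x * (rate J i x ^ 2 * F x) = ∑ x, p x * rate J i x * (rate J i x * F x) :=
    Finset.sum_congr rfl fun x _ => by ring
  rw [e1, ← h]
  refine Finset.sum_congr rfl fun x _ => ?_
  have := rate_mul_fl hJ i x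
  linear_combination (p x * F x) * this

lemma rate_le (hJ : Small J d) (hp : Gibbs J p) (i : ι) (F : (ι → Bool) → ℝ)
    (hF : ∀ x, F (fl x i) = F x) (hF0 : ∀ x, 0 ≤ F x) :
    ∑ x, p x * rate J i x * F x ≤ ∑ x, p x * F x := by
  have h := rate_sq_eq hJ hp i F hF
  have h2 : ∑ x, p x * rate J i x * F x
      ≤ ∑ x, (p x * (rate J i x ^ 2 * F x) + p x * F x) / 2 := by
    refine Finset.sum_le_sum fun x _ => ?_
    have : 0 ≤ p x * F x * (rate J i x - 1) ^ 2 :=
      mul_nonneg (mul_nonneg (hp.pos x).le (hF0 x)) (sq_nonneg _)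
    nlinarith
  rw [← Finset.sum_div, Finset.sum_add_distrib, h] at h2
  linarith

/-- The Bochner inequality. -/
lemma bochner (hJ : Small J d) (hd : d ≤ 1) (hp : Gibbs J p) (g : (ι → Bool) → ℝ) :
    (1 - d - d ^ 2) * ∑ i, ∑ x, p x * grad i g x ^ 2 ≤ ∑ x, p x * gen J g x ^ 2 := by
  set u : ι → (ι → Bool) → ℝ := fun i x => rate J i x * grad i g x with hu
  have e0 : ∑ i, ∑ x, p x * grad i g x ^ 2 = ∑ x, p x * ∑ i, u i x ^ 2 := by
    simp only [Finset.mul_sum]
    rw [Finset.sum_comm (s := univ) (t := univ) (f := fun x i => p x * u i x ^ 2)]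
    refine Finset.sum_congr rfl fun i _ => ?_
    rw [← rate_sq_eq hJ hp i (fun x => grad i g x ^ 2) (fun x => by rw [grad_fl]; ring)]
    exact Finset.sum_congr rfl fun x _ => by simp only [hu]; ring
  have h1 : ∑ x, p x * ∑ i, u i x ^ 2
      ≤ ∑ x, p x * ∑ i, ∑ j, u i x * u j x * Real.exp (J i j * sg (x i) * sg (x j)) := by
    simp only [Finset.mul_sum]
    rw [Finset.sum_comm (s := univ) (t := univ) (f := fun x i => p x * u i x ^ 2),
      Finset.sum_comm (s := univ) (t := univ)
        (f := fun x i => ∑ j, p x * (u i x * u j x * Real.exp (J i j * sg (x i) * sg (x j))))]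
    refine Finset.sum_le_sum fun i _ => ?_
    rw [Finset.sum_comm]
    have e : ∑ x, p x * u i x ^ 2
        = ∑ x, p x * (u i x * u i x * Real.exp (J i i * sg (x i) * sg (x i))) :=
      Finset.sum_congr rfl fun x _ => by rw [hJ.diag]; simp [sq]
    rw [e]
    refine Finset.single_le_sum (f := fun j => ∑ x, p x *
      (u i x * u j x * Real.exp (J i j * sg (x i) * sg (x j)))) (fun j _ => ?_) (Finset.mem_univ i)
    by_cases hij : i = j
    · subst hij
      exact Finset.sum_nonneg fun x _ => mul_nonneg (hp.pos x).le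
        (mul_nonneg (mul_self_nonneg _) (Real.exp_pos _).le)
    · exact bochner_pair hJ hp g hij
  have h2 : ∀ x, ∑ i, ∑ j, u i x * u j x * Real.exp (J i j * sg (x i) * sg (x j))
      ≤ gen J g x ^ 2 + (d + d ^ 2) * ∑ i, u i x ^ 2 := by
    intro x
    have hc := corr_le hJ hd (fun i => u i x) x
    have e : gen J g x ^ 2 = ∑ i, ∑ j, u i x * u j x := by
      rw [sq, gen, Finset.sum_mul_sum]
    have e2 : ∑ i, ∑ j, u i x * u j x * (Real.exp (J i j * sg (x i) * sg (x j)) - 1)
        = ∑ i, ∑ j, u i x * u j x * Real.exp (J i j * sg (x i) * sg (x j))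
          - ∑ i, ∑ j, u i x * u j x := by
      simp only [← Finset.sum_sub_distrib]
      exact Finset.sum_congr rfl fun i _ => Finset.sum_congr rfl fun j _ => by ring
    rw [e2] at hc
    rw [e]; linarith
  have h3 : ∑ x, p x * ∑ i, ∑ j, u i x * u j x * Real.exp (J i j * sg (x i) * sg (x j))
      ≤ ∑ x, p x * gen J g x ^ 2 + (d + d ^ 2) * ∑ x, p x * ∑ i, u i x ^ 2 := by
    rw [Finset.mul_sum, ← Finset.sum_add_distrib]
    refine Finset.sum_le_sum fun x _ => ?_
    have := mul_le_mul_of_nonneg_left (h2 x) (hp.pos x).le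
    nlinarith
  rw [e0]; linarith

omit [Fintype ι] in
lemma const_of_fl [Finite ι] (g : (ι → Bool) → ℝ) (h : ∀ x i, g (fl x i) = g x)
    (x y : ι → Bool) : g x = g y := by
  have := Fintype.ofFinite ι
  have key : ∀ s : Finset ι, g (s.piecewise y x) = g x := by
    intro s
    induction s using Finset.induction_on with
    | empty => simp
    | insert a s ha ih =>
      rw [Finset.piecewise_insert]
      by_cases hy : y a = s.piecewise y x a
      · rw [hy, Function.update_eq_self, ih]
      · have : y a = !(s.piecewise y x a) := by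
          revert hy; cases y a <;> cases s.piecewise y x a <;> simp
        rw [this, ← ih]
        exact h _ a
  have h2 := key univ
  rw [Finset.piecewise_univ] at h2
  exact h2.symm

lemma ex_gen (hJ : Small J d) (hp : Gibbs J p) (g : (ι → Bool) → ℝ) :
    ∑ x, p x * gen J g x = 0 := by
  have h := dirichlet hJ hp (fun _ => 1) g
  simpa [grad] using h

lemma solve (hJ : Small J d) (hp : Gibbs J p) (f : (ι → Bool) → ℝ)
    (hf0 : ∑ x, p x * f x = 0) : ∃ g, ∀ x, gen J g x = f x := by
  let T : ((ι → Bool) → ℝ) →ₗ[ℝ] ((ι → Bool) → ℝ) :=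
    { toFun := fun g x => gen J g x + ∑ y, p y * g y
      map_add' := by
        intro a b; funext x
        simp only [gen, grad, Pi.add_apply, mul_add, mul_sub, Finset.sum_add_distrib,
          Finset.sum_sub_distrib]
        ring
      map_smul' := by
        intro c a; funext x
        simp only [gen, grad, Pi.smul_apply, smul_eq_mul, RingHom.id_apply, mul_add,
          Finset.mul_sum]
        congr 1 <;> exact Finset.sum_congr rfl fun _ _ => by ring }
  have hmean : ∀ g, ∑ x, p x * T g x = ∑ y, p y * g y := by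
    intro g
    have : ∑ x, p x * T g x = ∑ x, p x * gen J g x + (∑ x, p x) * ∑ y, p y * g y := by
      rw [Finset.sum_mul, ← Finset.sum_add_distrib]
      exact Finset.sum_congr rfl fun x _ => by simp only [T, LinearMap.coe_mk, AddHom.coe_mk]; ring
    rw [this, ex_gen hJ hp, hp.sum]; ring
  have hinj : Function.Injective T := by
    rw [← LinearMap.ker_eq_bot, LinearMap.ker_eq_bot']
    intro g hg
    have h0 : ∑ y, p y * g y = 0 := by rw [← hmean, hg]; simp
    have h1 : ∀ x, gen J g x = 0 := by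
      intro x
      have := congrFun hg x
      simp only [T, LinearMap.coe_mk, AddHom.coe_mk, h0, add_zero, Pi.zero_apply] at this
      exact this
    have h2 := dirichlet hJ hp g g
    simp only [h1, mul_zero, Finset.sum_const_zero] at h2
    have hnn : ∀ i x, 0 ≤ p x * rate J i x * (grad i g x * grad i g x) := fun i x =>
      mul_nonneg (mul_nonneg (hp.pos x).le (rate_pos _ _).le) (mul_self_nonneg _)
    have h3 : ∑ i, ∑ x, p x * rate J i x * (grad i g x * grad i g x) = 0 := by linarith
    rw [Finset.sum_eq_zero_iff_of_nonneg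
      (fun i _ => Finset.sum_nonneg fun x _ => hnn i x)] at h3
    have h4 : ∀ x i, g (fl x i) = g x := by
      intro x i
      have h5 := h3 i (Finset.mem_univ i)
      rw [Finset.sum_eq_zero_iff_of_nonneg (fun x _ => hnn i x)] at h5
      have h6 := h5 x (Finset.mem_univ x)
      have hpos : 0 < p x * rate J i x := mul_pos (hp.pos x) (rate_pos _ _)
      have h7 : grad i g x * grad i g x = 0 := by
        rcases mul_eq_zero.1 h6 with h | h
        · exact absurd h hpos.ne'
        · exact h
      have h8 : grad i g x = 0 := mul_self_eq_zero.1 h7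
      simp only [grad] at h8
      linarith
    funext x
    have h9 : ∑ y, p y * g y = g x := by
      rw [← one_mul (g x), ← hp.sum, Finset.sum_mul]
      exact Finset.sum_congr rfl fun y _ => by rw [const_of_fl g h4 y x]
    rw [← h9, h0]; rfl
  have hsurj : Function.Surjective T := LinearMap.injective_iff_surjective.1 hinj
  obtain ⟨g, hg⟩ := hsurj f
  have h0 : ∑ y, p y * g y = 0 := by rw [← hmean, hg, hf0]
  refine ⟨g, fun x => ?_⟩
  have := congrFun hg x
  simp only [T, LinearMap.coe_mk, AddHom.coe_mk, h0, add_zero] at this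
  exact this

/-- **Poincaré inequality** for the Ising measure with operator norm `d`. -/
theorem poincare_sharp (hJ : Small J d) (hd : d ≤ 1 / 2) (hp : Gibbs J p)
    (f : (ι → Bool) → ℝ) :
    (1 - d - d ^ 2) * (Ex p (fun x => f x ^ 2) - Ex p f ^ 2)
      ≤ ∑ i, Ex p (fun x => dd i f x ^ 2) := by
  set m := Ex p f with hm
  have hκ : 0 < 1 - d - d ^ 2 := by nlinarith [hJ.nonneg]
  set κ := 1 - d - d ^ 2 with hκdef
  have hmean : ∑ x, p x * (f x - m) = 0 := by
    simp only [mul_sub, Finset.sum_sub_distrib, ← Finset.sum_mul, hp.sum]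
    simp [hm, Ex]
  obtain ⟨g, hg⟩ := solve hJ hp (fun x => f x - m) hmean
  set V := ∑ x, p x * (f x - m) ^ 2 with hV
  have hVe : Ex p (fun x => f x ^ 2) - m ^ 2 = V := by
    have e : V = ∑ x, p x * f x ^ 2 - 2 * m * ∑ x, p x * f x + m ^ 2 * ∑ x, p x := by
      simp only [hV, Finset.mul_sum, ← Finset.sum_sub_distrib, ← Finset.sum_add_distrib]
      exact Finset.sum_congr rfl fun x _ => by ring
    rw [e, hp.sum]
    have : ∑ x, p x * f x = m := rfl
    rw [this]; simp only [Ex]; ring
  have hB := bochner hJ (by linarith) hp g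
  simp only [hg] at hB
  have hD := dirichlet hJ hp (fun x => f x - m) g
  simp only [hg] at hD
  have hgr : ∀ i x, grad i (fun x => f x - m) x = grad i f x := by
    intro i x; simp [grad]
  simp only [hgr] at hD
  have hV2 : V = (∑ i, ∑ x, p x * rate J i x * (grad i f x * grad i g x)) / 2 := by
    rw [← hD]; exact Finset.sum_congr rfl fun x _ => by ring
  set A := ∑ i, ∑ x, p x * grad i f x ^ 2 with hA
  set B := ∑ i, ∑ x, p x * grad i g x ^ 2 with hBdef
  have h1 : 4 * κ * ∑ i, ∑ x, p x * rate J i x * (grad i f x * grad i g x)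
      ≤ A + 4 * κ ^ 2 * B := by
    rw [hA, hBdef, Finset.mul_sum, Finset.mul_sum, ← Finset.sum_add_distrib]
    refine Finset.sum_le_sum fun i _ => ?_
    have ha := rate_le hJ hp i (fun x => grad i f x ^ 2) (fun x => by rw [grad_fl]; ring)
      (fun x => sq_nonneg _)
    have hb := rate_le hJ hp i (fun x => grad i g x ^ 2) (fun x => by rw [grad_fl]; ring)
      (fun x => sq_nonneg _)
    have hc : 4 * κ * ∑ x, p x * rate J i x * (grad i f x * grad i g x)
        ≤ ∑ x, p x * rate J i x * grad i f x ^ 2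
          + 4 * κ ^ 2 * ∑ x, p x * rate J i x * grad i g x ^ 2 := by
      rw [Finset.mul_sum, Finset.mul_sum, ← Finset.sum_add_distrib]
      refine Finset.sum_le_sum fun x _ => ?_
      have : 0 ≤ p x * rate J i x * (grad i f x - 2 * κ * grad i g x) ^ 2 :=
        mul_nonneg (mul_nonneg (hp.pos x).le (rate_pos _ _).le) (sq_nonneg _)
      nlinarith
    have hk : 0 ≤ 4 * κ ^ 2 := by positivity
    have := mul_le_mul_of_nonneg_left hb hk
    linarith
  have e4 : ∑ i, Ex p (fun x => dd i f x ^ 2) = A / 4 := by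
    rw [hA, Finset.sum_div]
    refine Finset.sum_congr rfl fun i _ => ?_
    simp only [Ex, dd_sq, Finset.sum_div]
    exact Finset.sum_congr rfl fun x _ => by ring
  rw [hVe, e4]
  have h2 : κ * (κ * B) ≤ κ * V := mul_le_mul_of_nonneg_left hB hκ.le
  have h3 : ∑ i, ∑ x, p x * rate J i x * (grad i f x * grad i g x) = 2 * V := by
    rw [hV2]; ring
  rw [h3] at h1
  nlinarith

/-- Poincaré with the constant `2`, for `d ≤ 1/4`. -/
theorem poincare (hJ : Small J d) (hd : d ≤ 1 / 4) (hp : Gibbs J p) (f : (ι → Bool) → ℝ) :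
    Ex p (fun x => f x ^ 2) - Ex p f ^ 2 ≤ 2 * ∑ i, Ex p (fun x => dd i f x ^ 2) := by
  have h := poincare_sharp hJ (by linarith) hp f
  have h0 : 0 ≤ ∑ i, Ex p (fun x => dd i f x ^ 2) :=
    Finset.sum_nonneg fun i _ => Finset.sum_nonneg fun x _ =>
      mul_nonneg (hp.pos x).le (sq_nonneg _)
  have hκ : 1 / 2 ≤ 1 - d - d ^ 2 := by nlinarith [hJ.nonneg]
  by_cases hv : Ex p (fun x => f x ^ 2) - Ex p f ^ 2 ≤ 0
  · linarith
  · push Not at hv
    nlinarith

end Pool.Agent.MP_9e8696_an.H12
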