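import Pool.Agent.MP_9e8696_an.H12.Poincare

/-!
The Stein (Callen) identity for Ising measures, facts on `tanh`, and second moments.
-/

namespace Pool.Agent.MP_9e8696_an.H12

open Finset

lemma hasDerivAt_tanh (t : ℝ) : HasDerivAt Real.tanh (1 - Real.tanh t ^ 2) t := by
  have hc : Real.cosh t ≠ 0 := (Real.cosh_pos t).ne'
  have h := (Real.hasDerivAt_sinh t).div (Real.hasDerivAt_cosh t) hc
  have e : Real.tanh = Real.sinh / Real.cosh := by
    funext u; simp [Real.tanh_eq_sinh_div_cosh]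
  have e2 : 1 - Real.tanh t ^ 2
      = (Real.cosh t * Real.cosh t - Real.sinh t * Real.sinh t) / Real.cosh t ^ 2 := by
    rw [Real.tanh_eq_sinh_div_cosh]; field_simp
  rw [e2, e]
  exact h

lemma tanh_sq_le_one (t : ℝ) : Real.tanh t ^ 2 ≤ 1 := (Real.tanh_sq_lt_one t).le

lemma tanh_lip (a b : ℝ) : |Real.tanh a - Real.tanh b| ≤ |a - b| := by
  have h := Convex.norm_image_sub_le_of_norm_hasDerivWithin_le (f := Real.tanh)
    (f' := fun t => 1 - Real.tanh t ^ 2) (C := 1) (s := Set.univ) (x := b) (y := a)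
    (fun t _ => (hasDerivAt_tanh t).hasDerivWithinAt)
    (fun t _ => by
      rw [Real.norm_eq_abs, abs_le]
      constructor <;> nlinarith [tanh_sq_le_one t, sq_nonneg (Real.tanh t)])
    convex_univ (Set.mem_univ _) (Set.mem_univ _)
  simpa [Real.norm_eq_abs] using h

lemma tanh_sq_le (a : ℝ) : Real.tanh a ^ 2 ≤ a ^ 2 := by
  have h := tanh_lip a 0
  simp only [Real.tanh_zero, sub_zero] at h
  exact sq_le_sq.2 h

lemma tanh_taylor (h t : ℝ) :
    |Real.tanh (h - t) - Real.tanh h + t * (1 - Real.tanh h ^ 2)| ≤ 2 * t ^ 2 := by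
  have hd : ∀ u : ℝ, HasDerivAt (fun u => Real.tanh (h - u) + u * (1 - Real.tanh h ^ 2))
      (Real.tanh (h - u) ^ 2 - Real.tanh h ^ 2) u := by
    intro u
    have h1 := (hasDerivAt_tanh (h - u)).comp u ((hasDerivAt_id u).const_sub h)
    have h2 := (hasDerivAt_id u).mul_const (1 - Real.tanh h ^ 2)
    have h3 := h1.add h2
    have e : Real.tanh (h - u) ^ 2 - Real.tanh h ^ 2
        = (1 - Real.tanh (h - u) ^ 2) * -1 + 1 * (1 - Real.tanh h ^ 2) := by ring
    rw [e]
    exact h3
  have key := Convex.norm_image_sub_le_of_norm_hasDerivWithin_le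
    (f := fun u => Real.tanh (h - u) + u * (1 - Real.tanh h ^ 2))
    (f' := fun u => Real.tanh (h - u) ^ 2 - Real.tanh h ^ 2) (C := 2 * |t|)
    (s := Set.Icc (-|t|) |t|) (x := 0) (y := t)
    (fun u _ => (hd u).hasDerivWithinAt)
    (fun u hu => by
      rw [Real.norm_eq_abs]
      have h1 := tanh_lip (h - u) h
      have h2 : |h - u - h| = |u| := by rw [show h - u - h = -u by ring, abs_neg]
      have h3 : |u| ≤ |t| := abs_le.2 hu
      have h4 : |Real.tanh (h - u) + Real.tanh h| ≤ 2 := by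
        have := Real.abs_tanh_lt_one (h - u)
        have := Real.abs_tanh_lt_one h
        have := abs_add_le (Real.tanh (h - u)) (Real.tanh h)
        linarith
      rw [show Real.tanh (h - u) ^ 2 - Real.tanh h ^ 2
        = (Real.tanh (h - u) + Real.tanh h) * (Real.tanh (h - u) - Real.tanh h) by ring, abs_mul]
      exact mul_le_mul h4 (by linarith) (abs_nonneg _) (by norm_num))
    (convex_Icc _ _) ⟨by simp, by simp⟩ ⟨neg_abs_le t, le_abs_self t⟩
  simp only [sub_zero, zero_mul, add_zero, Real.norm_eq_abs] at key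
  have e : 2 * |t| * |t| = 2 * t ^ 2 := by rw [mul_assoc, abs_mul_abs_self]; ring
  rw [e] at key
  convert key using 2
  ring

variable {ι : Type*} [Fintype ι] [DecidableEq ι]

/-- The conditional mean `tanh h_i` of the spin `i`. -/
noncomputable def mm (J : ι → ι → ℝ) (i : ι) (x : ι → Bool) : ℝ := Real.tanh (hf J x i)

/-- The conditional variance `1 - tanh^2 h_i` of the spin `i`. -/
noncomputable def ss (J : ι → ι → ℝ) (i : ι) (x : ι → Bool) : ℝ := 1 - mm J i x ^ 2

/-- The linear form `<b,x>`. -/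
def lf (b : ι → ℝ) (x : ι → Bool) : ℝ := ∑ j, b j * sg (x j)

/-- The quadratic form `x'Ax`. -/
def qf (A : ι → ι → ℝ) (x : ι → Bool) : ℝ := ∑ i, ∑ j, A i j * sg (x i) * sg (x j)

variable {J : ι → ι → ℝ} {d : ℝ} {p : (ι → Bool) → ℝ}

omit [DecidableEq ι] in
lemma mm_sq_le_one (i : ι) (x : ι → Bool) : mm J i x ^ 2 ≤ 1 := tanh_sq_le_one _

omit [DecidableEq ι] in
lemma mm_sq_le (i : ι) (x : ι → Bool) : mm J i x ^ 2 ≤ lf (J i) x ^ 2 := tanh_sq_le _

omit [DecidableEq ι] in
lemma ss_nonneg (i : ι) (x : ι → Bool) : 0 ≤ ss J i x := by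
  have := mm_sq_le_one (J := J) i x
  simp only [ss]; linarith

omit [DecidableEq ι] in
lemma ss_le_one (i : ι) (x : ι → Bool) : ss J i x ≤ 1 := by
  simp only [ss]; nlinarith [sq_nonneg (mm J i x)]

lemma mm_fl (hJ : Small J d) (i : ι) (x : ι → Bool) : mm J i (fl x i) = mm J i x := by
  simp only [mm, hf_fl_same hJ]

lemma lf_fl (b : ι → ℝ) (x : ι → Bool) (i : ι) :
    lf b (fl x i) = lf b x - 2 * b i * sg (x i) := lin_fl b x i

lemma dd_lf (b : ι → ℝ) (x : ι → Bool) (i : ι) : dd i (lf b) x = b i := dd_lin b x i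

omit [DecidableEq ι] in
lemma lf_neg (b : ι → ℝ) (x : ι → Bool) : lf b (fun i => !x i) = -lf b x := by
  simp only [lf, sg_not, mul_neg, Finset.sum_neg_distrib]

omit [DecidableEq ι] in
lemma mm_neg (i : ι) (x : ι → Bool) : mm J i (fun i => !x i) = -mm J i x := by
  have : hf J (fun i => !x i) i = -hf J x i := lf_neg (J i) x
  simp only [mm, this, Real.tanh_neg]

/-- Odd functions have mean zero. -/
lemma ex_odd (hp : Gibbs J p) (F : (ι → Bool) → ℝ) (hF : ∀ x, F (fun i => !x i) = -F x) :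
    Ex p F = 0 := by
  have h := sum_neg (fun x => p x * F x)
  simp only [hp.neg, hF, mul_neg, Finset.sum_neg_distrib] at h
  simp only [Ex]; linarith

lemma ex_mono (hp : Gibbs J p) {F G : (ι → Bool) → ℝ} (h : ∀ x, F x ≤ G x) :
    Ex p F ≤ Ex p G :=
  Finset.sum_le_sum fun x _ => mul_le_mul_of_nonneg_left (h x) (hp.pos x).le

lemma ex_nonneg (hp : Gibbs J p) {F : (ι → Bool) → ℝ} (h : ∀ x, 0 ≤ F x) : 0 ≤ Ex p F :=
  Finset.sum_nonneg fun x _ => mul_nonneg (hp.pos x).le (h x)

lemma ex_const (hp : Gibbs J p) (c : ℝ) : Ex p (fun _ => c) = c := by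
  simp only [Ex, ← Finset.sum_mul, hp.sum, one_mul]

lemma ex_add (F G : (ι → Bool) → ℝ) : Ex p (fun x => F x + G x) = Ex p F + Ex p G := by
  simp only [Ex, mul_add, Finset.sum_add_distrib]

lemma ex_sub (F G : (ι → Bool) → ℝ) : Ex p (fun x => F x - G x) = Ex p F - Ex p G := by
  simp only [Ex, mul_sub, Finset.sum_sub_distrib]

lemma ex_mul (c : ℝ) (F : (ι → Bool) → ℝ) : Ex p (fun x => c * F x) = c * Ex p F := by
  simp only [Ex, Finset.mul_sum]
  exact Finset.sum_congr rfl fun x _ => by ring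

lemma ex_sum {κ : Type*} (s : Finset κ) (F : κ → (ι → Bool) → ℝ) :
    Ex p (fun x => ∑ k ∈ s, F k x) = ∑ k ∈ s, Ex p (F k) := by
  simp only [Ex, Finset.mul_sum]
  exact Finset.sum_comm

/-- Cauchy-Schwarz. -/
lemma ex_cs (hp : Gibbs J p) (F G : (ι → Bool) → ℝ) :
    Ex p (fun x => F x * G x) ^ 2 ≤ Ex p (fun x => F x ^ 2) * Ex p (fun x => G x ^ 2) := by
  have h := Finset.sum_mul_sq_le_sq_mul_sq univ (fun x => Real.sqrt (p x) * F x)
    (fun x => Real.sqrt (p x) * G x)
  have e : ∀ x, Real.sqrt (p x) * Real.sqrt (p x) = p x := fun x => Real.mul_self_sqrt (hp.pos x).le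
  have e1 : ∀ (F G : (ι → Bool) → ℝ), ∑ x, Real.sqrt (p x) * F x * (Real.sqrt (p x) * G x)
      = Ex p (fun x => F x * G x) := fun F G =>
    Finset.sum_congr rfl fun x _ => by linear_combination (F x * G x) * e x
  simp only [sq] at h ⊢
  rw [e1, e1, e1] at h
  exact h

/-- The Callen identity. -/
lemma callen (hJ : Small J d) (hp : Gibbs J p) (i : ι) (G : (ι → Bool) → ℝ)
    (hG : ∀ x, G (fl x i) = G x) :
    Ex p (fun x => sg (x i) * G x) = Ex p (fun x => mm J i x * G x) := by
  have h := sum_fl i (fun x => p x * ((sg (x i) - mm J i x) * G x))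
  have key : ∀ x, p (fl x i) * ((sg (fl x i i) - mm J i (fl x i)) * G (fl x i))
      = -(p x * ((sg (x i) - mm J i x) * G x)) := by
    intro x
    rw [hp.flip, hG, mm_fl hJ, sg_fl_same]
    have : Real.exp (-2 * sg (x i) * hf J x i) * (-sg (x i) - mm J i x)
        = -(sg (x i) - mm J i x) := by
      simp only [mm, Real.tanh_eq]
      set h := hf J x i
      have h1 : Real.exp h * Real.exp (-h) = 1 := by rw [← Real.exp_add]; simp
      have hpos : Real.exp h + Real.exp (-h) ≠ 0 := by positivity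
      cases x i
      · have e : Real.exp (-2 * sg false * h) = Real.exp (-h) * Real.exp (-h) := by
          rw [← Real.exp_add]; congr 1; simp [sg]; ring
        rw [e]; simp only [sg]
        field_simp
        simp only [Bool.false_eq_true, if_false]
        linear_combination (-2 * Real.exp (-h)) * h1
      · have e : Real.exp (-2 * sg true * h) = Real.exp h * Real.exp h := by
          rw [← Real.exp_add]; congr 1; simp [sg]; ring
        rw [e]; simp only [sg]
        field_simp
        simp only [if_true]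
        linear_combination (2 * Real.exp h) * h1
    linear_combination (p x * G x) * this
  simp only [key, Finset.sum_neg_distrib] at h
  have h0 : ∑ x, p x * ((sg (x i) - mm J i x) * G x) = 0 := by linarith
  have e : Ex p (fun x => sg (x i) * G x) - Ex p (fun x => mm J i x * G x)
      = ∑ x, p x * ((sg (x i) - mm J i x) * G x) := by
    simp only [Ex, ← Finset.sum_sub_distrib]
    exact Finset.sum_congr rfl fun x _ => by ring
  linarith

/-- **Stein identity**: `E[(x_i - m_i) F] = E[s_i D_i F]`. -/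
theorem stein (hJ : Small J d) (hp : Gibbs J p) (i : ι) (F : (ι → Bool) → ℝ) :
    Ex p (fun x => sg (x i) * F x)
      = Ex p (fun x => mm J i x * F x) + Ex p (fun x => ss J i x * dd i F x) := by
  have h1 := callen hJ hp i (fun x => (F x + F (fl x i)) / 2) (fun x => by rw [fl_fl]; ring)
  have h2 := callen hJ hp i (fun x => mm J i x * dd i F x) (fun x => by rw [mm_fl hJ, dd_fl])
  have e1 : Ex p (fun x => sg (x i) * F x)
      = Ex p (fun x => sg (x i) * ((F x + F (fl x i)) / 2)) + Ex p (fun x => dd i F x) := by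
    rw [← ex_add]; congr 1; funext x; simp only [dd]; ring
  have e2 : Ex p (fun x => mm J i x * F x)
      = Ex p (fun x => mm J i x * ((F x + F (fl x i)) / 2))
        + Ex p (fun x => sg (x i) * (mm J i x * dd i F x)) := by
    rw [← ex_add]; congr 1; funext x
    rw [fl_eq_dd i F x]; ring
  have e3 : Ex p (fun x => ss J i x * dd i F x)
      = Ex p (fun x => dd i F x) - Ex p (fun x => mm J i x * (mm J i x * dd i F x)) := by
    rw [← ex_sub]; congr 1; funext x; simp only [ss]; ring
  rw [e1, e2, e3, h1, h2]; ring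

lemma dd_mm_abs (i j : ι) (x : ι → Bool) : |dd i (mm J j) x| ≤ |J j i| := by
  have h := tanh_lip (hf J x j) (hf J (fl x i) j)
  rw [hf_fl] at h
  have e : |hf J x j - (hf J x j - 2 * J j i * sg (x i))| = 2 * |J j i| := by
    rw [show hf J x j - (hf J x j - 2 * J j i * sg (x i)) = 2 * J j i * sg (x i) by ring,
      abs_mul, abs_mul, abs_sg]; simp
  rw [e] at h
  simp only [dd, mm, hf_fl, abs_div, abs_mul, abs_sg, abs_two]
  linarith

lemma dd_mm (i j : ι) (x : ι → Bool) :
    |dd i (mm J j) x - ss J j x * J j i| ≤ 4 * J j i ^ 2 := by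
  have h := tanh_taylor (hf J x j) (2 * J j i * sg (x i))
  have e : 2 * (2 * J j i * sg (x i)) ^ 2 = 8 * J j i ^ 2 := by
    rw [mul_pow, sg_sq]; ring
  rw [e] at h
  have hs := sg_mul_self (x i)
  have e2 : dd i (mm J j) x - ss J j x * J j i
      = -(sg (x i) / 2) * (Real.tanh (hf J x j - 2 * J j i * sg (x i)) - Real.tanh (hf J x j)
        + 2 * J j i * sg (x i) * (1 - Real.tanh (hf J x j) ^ 2)) := by
    simp only [dd, ss, mm, hf_fl]
    linear_combination (J j i * (1 - Real.tanh (hf J x j) ^ 2)) * hs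
  rw [e2, abs_mul, abs_neg, abs_div, abs_sg, abs_two]
  linarith

omit [Fintype ι] in
lemma dd_sum {κ : Type*} (s : Finset κ) (i : ι) (F : κ → (ι → Bool) → ℝ) (x : ι → Bool) :
    dd i (fun x => ∑ k ∈ s, F k x) x = ∑ k ∈ s, dd i (F k) x := by
  simp only [dd, ← Finset.sum_sub_distrib, Finset.mul_sum, Finset.sum_div]

omit [Fintype ι] in
lemma dd_cmul (c : ℝ) (i : ι) (F : (ι → Bool) → ℝ) (x : ι → Bool) :
    dd i (fun x => c * F x) x = c * dd i F x := by
  simp only [dd]; ring

omit [Fintype ι] in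
lemma dd_mul (i : ι) (F G : (ι → Bool) → ℝ) (x : ι → Bool) :
    dd i (fun x => F x * G x) x
      = dd i F x * G x + F x * dd i G x - 2 * sg (x i) * dd i F x * dd i G x := by
  have hs := sg_mul_self (x i)
  simp only [dd]
  linear_combination (sg (x i) * (F x - F (fl x i)) * (G x - G (fl x i)) / 2) * hs

/-- Second moment of a linear form. -/
theorem lf_sq_le (hJ : Small J d) (hd : d ≤ 1 / 4) (hp : Gibbs J p) (b : ι → ℝ) :
    Ex p (fun x => lf b x ^ 2) ≤ 2 * ∑ i, b i ^ 2 := by
  have h := poincare hJ hd hp (lf b)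
  rw [ex_odd hp (lf b) (lf_neg b)] at h
  simp only [dd_lf, ex_const hp] at h
  linarith

theorem mm_sq_ex (hJ : Small J d) (hd : d ≤ 1 / 4) (hp : Gibbs J p) (i : ι) :
    Ex p (fun x => mm J i x ^ 2) ≤ 2 * ∑ j, J i j ^ 2 :=
  (ex_mono hp (fun x => mm_sq_le i x)).trans (lf_sq_le hJ hd hp (J i))

end Pool.Agent.MP_9e8696_an.H12
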