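import Pool.Agent.MP_9e8696_an.H12.Gain
import Pool.Agent.MP_9e8696_an.H78.Mom
import Pool.Agent.MP_9e8696_an.H90.VarLow
import Pool.Agent.MP_9e8696_an.H99.Spec

/-!
The toolbox in the notation of the one-label inequality.
-/

namespace Pool.Agent.MP_9e8696_an.H12

open Finset

/-- The lower variance bound, as a hypothesis. -/
def VarLow (C d₀ : ℝ) : Prop :=
  ∀ (ι : Type) [Fintype ι] [DecidableEq ι] (J : ι → ι → ℝ) (d : ℝ) (p : (ι → Bool) → ℝ),
    Small J d → d ≤ d₀ → Gibbs J p → ∀ A : ι → ι → ℝ, (∀ i j, A i j = A j i) → (∀ i, A i i = 0) →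
      ∑ i, ∑ j, A i j ^ 2 ≤ C * (Ex p (fun x => qf A x ^ 2) - Ex p (qf A) ^ 2)

variable {ι : Type} [Fintype ι] [DecidableEq ι]

lemma sg68 (b : Bool) : H68.sg b = -sg b := by cases b <;> simp [H68.sg, sg]

omit [DecidableEq ι] in
lemma qf82 (Q : ι → ι → ℝ) (x : ι → Bool) : H82.qf Q (fun i => H68.sg (x i)) = qf Q x := by
  simp only [H82.qf, qf, sg68]
  exact Finset.sum_congr rfl fun i _ => Finset.sum_congr rfl fun j _ => by ring

omit [DecidableEq ι] in
lemma lf82 (b : ι → ℝ) (x : ι → Bool) : H82.lf b x = -lf b x := by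
  simp only [H82.lf, lf, sg68, mul_neg, Finset.sum_neg_distrib]

/-- The off-diagonal part. -/
def off1 (A : ι → ι → ℝ) : ι → ι → ℝ := fun i j => if i = j then 0 else A i j

lemma yq82 (A : ι → ι → ℝ) : H82.yq A = qf (off1 A) := by
  funext x
  rw [H82.yq, qf82]
  simp only [qf, ← Finset.sum_sub_distrib]
  refine Finset.sum_congr rfl fun i _ => ?_
  have e : ∀ j, off1 A i j * sg (x i) * sg (x j)
      = A i j * sg (x i) * sg (x j) - if i = j then A i j * sg (x i) * sg (x j) else 0 := by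
    intro j; simp only [off1]; split_ifs <;> ring
  simp only [e, Finset.sum_sub_distrib, Finset.sum_ite_eq, Finset.mem_univ, if_true]
  rw [mul_assoc (A i i), sg_mul_self, mul_one]

lemma off99 (A : ι → ι → ℝ) : H99.off A = ∑ i, ∑ j, off1 A i j ^ 2 := by
  simp only [H99.off, off1]
  exact Finset.sum_congr rfl fun i _ => Finset.sum_congr rfl fun j _ => by
    split_ifs <;> simp

/-- The normalised weight. -/
noncomputable def pq (Q : ι → ι → ℝ) (x : ι → Bool) : ℝ :=
  Real.exp (qf Q x) / ∑ y, Real.exp (qf Q y)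

lemma qE_eq (Q : ι → ι → ℝ) (F : (ι → Bool) → ℝ) : H99.qE Q F = Ex (pq Q) F := by
  simp only [H99.qE, Ex, pq, qf82, Finset.sum_div]
  exact Finset.sum_congr rfl fun x _ => by ring

lemma gibbs_pq {Q : ι → ι → ℝ} (hQ : ∀ i j, Q i j = Q j i) : Gibbs (off2 Q) (pq Q) :=
  gibbs_of hQ (qf Q) 0 (fun x => by simp)

theorem tool_of {C d₀ : ℝ} (hd₀ : 0 < d₀) (h : VarLow C d₀) : H99.RowTool := by
  refine ⟨max 1364480 C, min (1 / 25) (d₀ / 2), le_trans (by norm_num) (le_max_left _ _),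
    lt_min (by norm_num) (by linarith), ?_⟩
  intro ι _ _ Q d hs hlo hup hd0 hd
  have hd1 : d ≤ 1 / 25 := hd.trans (min_le_left _ _)
  have hd2 : d ≤ d₀ / 2 := hd.trans (min_le_right _ _)
  have hQ : Psd Q d := ⟨hs, hd0, hlo, hup⟩
  have hJ := hQ.small
  have hp := gibbs_pq hs
  have h4 : 2 * d ≤ 1 / 4 := by linarith
  have hM : (1364480 : ℝ) ≤ max 1364480 C := le_max_left _ _
  have hC : C ≤ max 1364480 C := le_max_right _ _
  refine ⟨fun b => ?_, fun b => ?_, fun b => ?_, fun A hA => ?_⟩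
  · rw [qE_eq]
    simp only [lf82, neg_sq]
    exact lf_sq_le hJ h4 hp b
  · rw [qE_eq]
    have e : ∀ x, H82.lf b x ^ 4 = lf b x ^ 4 := fun x => by rw [lf82]; ring
    simp only [e]
    have h1 := AABml.H78.lin_four hJ h4 hp b
    have h2 : (296 : ℝ) * (∑ i, b i ^ 2) ^ 2 ≤ max 1364480 C * (∑ i, b i ^ 2) ^ 2 :=
      mul_le_mul_of_nonneg_right (by linarith) (sq_nonneg _)
    exact le_trans h1 h2
  · rw [qE_eq]
    simp only [lf82, neg_sq]
    exact gain hQ hd1 hp b
  · have hs1 : ∀ i j, off1 A i j = off1 A j i := by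
      intro i j; simp only [off1, eq_comm, hA i j]
    have h0 : ∀ i, off1 A i i = 0 := fun i => by simp [off1]
    have hN : 0 ≤ ∑ i, ∑ j, off1 A i j ^ 2 :=
      Finset.sum_nonneg fun i _ => Finset.sum_nonneg fun j _ => sq_nonneg _
    simp only [qE_eq, yq82, off99]
    refine ⟨?_, ?_, ?_⟩
    · have h1 := h ι (off2 Q) (2 * d) (pq Q) hJ (by linarith) hp (off1 A) hs1 h0
      rw [← AABml.H78.ex_center hp] at h1
      have h2 : 0 ≤ Ex (pq Q) (fun x => (qf (off1 A) x - Ex (pq Q) (qf (off1 A))) ^ 2) :=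
        ex_nonneg hp fun x => sq_nonneg _
      exact h1.trans (mul_le_mul_of_nonneg_right hC h2)
    · have h1 := AABml.H78.qf_two hJ h4 hp (off1 A) hs1 h0
      exact le_trans h1 (mul_le_mul_of_nonneg_right (by linarith) hN)
    · have h1 := AABml.H78.qf_four hJ h4 hp (off1 A) hs1 h0
      exact le_trans h1 (mul_le_mul_of_nonneg_right hM (sq_nonneg _))

theorem varLow : VarLow 11 (1 / 20) := by
  intro ι _ _ J d p hJ hd hp A hs h0
  have h := H90.var_low hJ hd hp A hs h0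
  change _ ≤ Ex p (fun x => qf A x ^ 2) - Ex p (qf A) ^ 2 at h
  linarith

theorem rowTool : H99.RowTool := tool_of (by norm_num) varLow

end Pool.Agent.MP_9e8696_an.H12
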